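import Pool.Agent.H55.GW.Targets2

/-!
# SX: a small set of vertices whose removal makes nothing reachable from both sets
-/

set_option autoImplicit false

namespace Pool.Agent.H13.GW

open Pool.Agent.H55.GW

variable {W : Type} {D : W → W → Prop}

/-- a finite set is separated by itself, so the cut is attained -/
theorem cut_spec {X Y : Set W} (hX : X.Finite) :
    ∃ S : Finset W, S.card = cut D X Y ∧ Sep D (S : Set W) X Y := by
  classical
  have hne : {n | ∃ S : Finset W, S.card = n ∧ Sep D (S : Set W) X Y}.Nonempty :=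
    ⟨hX.toFinset.card, hX.toFinset, rfl, fun x hx y _ hr => hr.1 (by simpa using hx)⟩
  exact Nat.sInf_mem hne

theorem cut_le {X Y : Set W} {S : Finset W} (h : Sep D (S : Set W) X Y) :
    cut D X Y ≤ S.card := Nat.sInf_le ⟨S, rfl, h⟩

/-- gluing small separators -/
theorem glue (hS : T_SUBM) (T : Set W) (I : Finset W) (hI : Lnk D I.card (I : Set W) T)
    (A : Finset W) (hA : ∀ v ∈ A, cut D ((I : Set W) ∪ {v}) T ≤ I.card) :
    cut D ((I : Set W) ∪ (A : Set W)) T ≤ I.card := by
  classical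
  induction A using Finset.induction_on with
  | empty =>
    rw [Finset.coe_empty, Set.union_empty]
    exact cut_le (fun x hx y _ hr => hr.1 hx)
  | insert v A _ ih =>
    have h1 := ih fun w hw => hA w (Finset.mem_insert_of_mem hw)
    have h2 := hA v (Finset.mem_insert_self _ _)
    have hf1 : ((I : Set W) ∪ (A : Set W)).Finite := I.finite_toSet.union A.finite_toSet
    have hf2 : ((I : Set W) ∪ {v}).Finite := I.finite_toSet.union (Set.finite_singleton v)
    have h3 := hS W D T _ _ hf1 hf2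
    have h4 : I.card ≤ cut D (((I : Set W) ∪ (A : Set W)) ∩ ((I : Set W) ∪ {v})) T := by
      obtain ⟨S, hS1, hS2⟩ := cut_spec (D := D) (Y := T) (hf1.inter_of_left ((I : Set W) ∪ {v}))
      rw [← hS1]
      exact hI.le_card (hS2.mono subset_rfl
        (Set.subset_inter Set.subset_union_left Set.subset_union_left) subset_rfl)
    have h5 : ((I : Set W) ∪ ((insert v A : Finset W) : Set W)) =
        ((I : Set W) ∪ (A : Set W)) ∪ ((I : Set W) ∪ {v}) := by
      ext w
      simp only [Finset.coe_insert, Set.mem_union, Set.mem_insert_iff, Set.mem_singleton_iff,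
        Finset.mem_coe]
      tauto
    rw [h5]
    omega

/-- SX -/
theorem sx (hM : T_MEN) (hS : T_SUBM) : T_SX := by
  classical
  intro W D U hU hD T₁ T₂ Q hT₁ hT₂ hQ K hK
  have hQf : Q.Finite := hU.subset hQ
  -- a common set of maximum size
  obtain ⟨I, ⟨hIQ, hI1, hI2⟩, hmax⟩ : ∃ I : Finset W, ((I : Set W) ⊆ Q ∧
      Lnk D I.card T₁ (I : Set W) ∧ Lnk D I.card T₂ (I : Set W)) ∧
      ∀ X : Finset W, ((X : Set W) ⊆ Q ∧ Lnk D X.card T₁ (X : Set W) ∧
        Lnk D X.card T₂ (X : Set W)) → X.card ≤ I.card := by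
    have hne : ∃ n : ℕ, ∃ X : Finset W, X.card = n ∧ ((X : Set W) ⊆ Q ∧
      Lnk D X.card T₁ (X : Set W) ∧ Lnk D X.card T₂ (X : Set W)) :=
      ⟨0, ∅, by simp, by simp, by simpa using lnk_zero, by simpa using lnk_zero⟩
    have hb : ∀ n : ℕ, (∃ X : Finset W, X.card = n ∧ ((X : Set W) ⊆ Q ∧
      Lnk D X.card T₁ (X : Set W) ∧ Lnk D X.card T₂ (X : Set W))) → n ≤ K := by
      rintro n ⟨X, rfl, h1, h2, h3⟩
      exact hK X h1 h2 h3
    obtain ⟨X, hX1, hX2⟩ := Nat.findGreatest_spec (P := fun n => ∃ X : Finset W, X.card = n ∧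
      ((X : Set W) ⊆ Q ∧ Lnk D X.card T₁ (X : Set W) ∧ Lnk D X.card T₂ (X : Set W)))
      (hb _ hne.choose_spec) hne.choose_spec
    refine ⟨X, hX2, fun Y hY => ?_⟩
    rw [hX1]
    exact Nat.le_findGreatest (hb _ ⟨Y, rfl, hY⟩) ⟨Y, rfl, hY⟩
  have hD' : ∀ u v, (fun a b => D b a) u v → u ∈ U ∧ v ∈ U := fun u v h => (hD v u h).symm
  have key : ∀ T : Set W, T ⊆ U → ∀ v ∈ Q, ¬ Lnk D (I.card + 1) T ((I : Set W) ∪ {v}) →
      cut (fun a b => D b a) ((I : Set W) ∪ {v}) T ≤ I.card := by
    intro T hT v hv hn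
    by_contra hcon
    push Not at hcon
    apply hn
    apply lnk_rev.1
    apply hM W (fun a b => D b a) U hU hD' _ _ _ hT
    · intro S hS
      exact le_trans hcon (cut_le hS)
    · rintro w (hw | hw)
      · exact hQ (hIQ hw)
      · rw [Set.mem_singleton_iff.1 hw]
        exact hQ hv
  have sep : ∀ T : Set W, Lnk D I.card T (I : Set W) → ∃ S : Finset W, S.card ≤ K ∧
      ∀ v ∈ Q, (v ∈ I ∨ cut (fun a b => D b a) ((I : Set W) ∪ {v}) T ≤ I.card) →
        ∀ s ∈ T, ¬ RIn D (S : Set W)ᶜ s v := by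
    intro T hT
    let A : Finset W := hQf.toFinset.filter
      fun v => cut (fun a b => D b a) ((I : Set W) ∪ {v}) T ≤ I.card
    have hA := glue (D := fun a b => D b a) hS T I (lnk_rev.2 hT) A
      (fun v hv => (Finset.mem_filter.1 hv).2)
    obtain ⟨S, hS1, hS2⟩ := cut_spec (D := fun a b => D b a) (Y := T)
      (I.finite_toSet.union A.finite_toSet)
    refine ⟨S, ?_, ?_⟩
    · rw [hS1]
      exact hA.trans (hK I hIQ hI1 hI2)
    · intro v hv hv' s hs hr
      refine hS2 v ?_ s hs hr.rev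
      rcases hv' with h | h
      · exact Or.inl h
      · exact Or.inr (Finset.mem_coe.2 (Finset.mem_filter.2 ⟨by simpa using hv, h⟩))
  obtain ⟨S₁, hS₁, h1⟩ := sep T₁ hI1
  obtain ⟨S₂, hS₂, h2⟩ := sep T₂ hI2
  refine ⟨S₁ ∪ S₂, ?_, ?_⟩
  · have := Finset.card_union_le S₁ S₂
    omega
  · rintro v hv _ ⟨⟨s, hs, hsr⟩, ⟨t, ht, htr⟩⟩
    have m1 : (((S₁ ∪ S₂ : Finset W) : Set W))ᶜ ⊆ (S₁ : Set W)ᶜ := by
      apply Set.compl_subset_compl.2
      rw [Finset.coe_union]
      exact Set.subset_union_left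
    have m2 : (((S₁ ∪ S₂ : Finset W) : Set W))ᶜ ⊆ (S₂ : Set W)ᶜ := by
      apply Set.compl_subset_compl.2
      rw [Finset.coe_union]
      exact Set.subset_union_right
    by_cases hvI : v ∈ I
    · exact h1 v hv (Or.inl hvI) s hs (hsr.mono_set m1)
    · by_cases hc : Lnk D (I.card + 1) T₁ ((I : Set W) ∪ {v})
      · have hc2 : ¬ Lnk D (I.card + 1) T₂ ((I : Set W) ∪ {v}) := by
          intro hc2
          have hcard : (insert v I).card = I.card + 1 := Finset.card_insert_of_notMem hvI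
          have hco : ((insert v I : Finset W) : Set W) = (I : Set W) ∪ {v} := by
            rw [Finset.coe_insert, Set.union_comm]
            rfl
          have := hmax (insert v I) ⟨by
            rw [hco]
            rintro w (hw | hw)
            · exact hIQ hw
            · rw [Set.mem_singleton_iff.1 hw]
              exact hv, by rw [hcard, hco]; exact hc, by rw [hcard, hco]; exact hc2⟩
          omega
        exact h2 v hv (Or.inr (key T₂ hT₂ v hv hc2)) t ht (htr.mono_set m2)
      · exact h1 v hv (Or.inr (key T₁ hT₁ v hv hc)) s hs (hsr.mono_set m1)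

end Pool.Agent.H13.GW
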